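import Pool.Agent.Y254.HK.Stm

/-! # The facts which use the angle of `l1` and `l3` -/

set_option autoImplicit false

open Finset
open scoped Classical

namespace Pool.Agent.Y37.HK
open Pool.Agent.W904.AK Pool.Agent.W46.HD Pool.Agent.W46.HM Pool.Agent.Y244.HM
  Pool.Agent.W597.HD Pool.Agent.Y254HK

theorem sep_bound {n : ℕ} (hn : 1 ≤ n) {a δ : ℝ} (h1 : |a| ≤ n) (h2 : |a| * δ ≤ 2) :
    |a| ≤ 2 * max 1 ((n : ℝ) / max 1 ((n : ℝ) * δ)) := by
  have hn0 : (0 : ℝ) < n := by exact_mod_cast hn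
  by_cases h : (n : ℝ) * δ ≤ 1
  · rw [max_eq_left h, div_one]
    have := le_max_right 1 (n : ℝ)
    linarith
  · push Not at h
    rw [max_eq_right h.le]
    have hδ : 0 < δ := by
      by_contra h3
      push Not at h3
      have := mul_nonpos_of_nonneg_of_nonpos hn0.le h3
      linarith
    have h3 : (n : ℝ) / (n * δ) = 1 / δ := by
      field_simp
    rw [h3]
    have h4 : |a| ≤ 2 * (1 / δ) := by
      rw [mul_one_div, le_div_iff₀ hδ]
      exact h2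
    have := le_max_right 1 (1 / δ)
    linarith

theorem log_absorb (C ε : ℝ) (hC : 0 ≤ C) (hε : 0 < ε) : ∃ K : ℝ, 0 ≤ K ∧ ∀ x : ℝ, 0 ≤ x →
    C * (1 + Real.log (1 + x)) ≤ ε * x + K := by
  obtain ⟨η, hη⟩ : ∃ η : ℝ, η = ε / (C + 1) := ⟨_, rfl⟩
  have hη0 : 0 < η := by rw [hη]; positivity
  have hCη : C * η ≤ ε := by
    rw [hη, mul_div_assoc', div_le_iff₀ (by positivity)]
    nlinarith
  refine ⟨C * (η + |Real.log η|), by positivity, fun x hx => ?_⟩
  have h1 : Real.log (1 + x) ≤ η * (1 + x) - 1 - Real.log η := by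
    have h2 := Real.log_le_sub_one_of_pos (show 0 < η * (1 + x) by positivity)
    rw [Real.log_mul hη0.ne' (by positivity)] at h2
    linarith
  have h3 := neg_abs_le (Real.log η)
  have h4 : C * (1 + Real.log (1 + x)) ≤ C * (η * (1 + x) + |Real.log η|) :=
    mul_le_mul_of_nonneg_left (by linarith) hC
  have h5 : C * η * x ≤ ε * x := mul_le_mul_of_nonneg_right hCη hx
  have h6 : C * (η * (1 + x) + |Real.log η|) = C * η * x + C * (η + |Real.log η|) := by ring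
  linarith

theorem box1 (hBOX : S_BOX) (ε : ℝ) (hε : 0 < ε) : ∃ C : ℝ, 0 ≤ C ∧ ∀ (d n : ℕ) (Ω : Type)
    (D : Ω → Fin d → ℝ), 1 ≤ n → ∀ (S : ℝ) (Θ : Type) [Fintype Θ] (q : Θ → ℝ)
    (l1 l3 : Θ → Ω) (α : Type) (f : Θ → α) (s : Θ → Fin n), IsLaw q →
    ∑ z, q z * dz n D (l1 z) (l3 z) ≤ S →
    (∀ x y, q x ≠ 0 → q y ≠ 0 → f x = f y → l1 x = l1 y ∧ l3 x = l3 y ∧
      ∀ i, |(((s x : ℕ) : ℝ) - ((s y : ℕ) : ℝ)) * (D (l1 x) i - D (l3 x) i)| ≤ 2) →
    H q (fun z => (f z, s z)) ≤ H q f + (ε * Real.log n + C * (1 + S)) := by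
  obtain ⟨C1, hC1, hB⟩ := hBOX 1 1 zero_le_one
  obtain ⟨K, hK, hKa⟩ := log_absorb C1 ε hC1 hε
  refine ⟨1 + K, by linarith, ?_⟩
  intro d n Ω D hn S Θ _ q l1 l3 α f s hq hS hdet
  have hn1 : (1 : ℝ) ≤ n := by exact_mod_cast hn
  have hlogn : 0 ≤ Real.log n := Real.log_nonneg hn1
  have hdz : ∀ z, 0 ≤ dz n D (l1 z) (l3 z) := fun z => Real.log_nonneg (le_max_left _ _)
  have hdz' : ∀ z, dz n D (l1 z) (l3 z) ≤ Real.log n := by
    intro z
    refine Real.log_le_log (by positivity) (max_le hn1 ?_)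
    exact div_le_self (by linarith) (le_max_left _ _)
  have hS0 : 0 ≤ S :=
    (Finset.sum_nonneg fun z _ => mul_nonneg (hq.nonneg z) (hdz z)).trans hS
  have hlog2 : Real.log 2 ≤ 1 := by
    have := Real.log_two_lt_d9
    linarith
  obtain ⟨R, hR⟩ : ∃ R : Θ → ℝ, ∀ z, R z =
    2 * max 1 ((n : ℝ) / max 1 ((n : ℝ) * ‖D (l1 z) - D (l3 z)‖)) := ⟨_, fun _ => rfl⟩
  have hRlog : ∀ z, Real.log (R z) = Real.log 2 + dz n D (l1 z) (l3 z) := by
    intro z
    rw [hR, Real.log_mul (by norm_num) (by positivity)]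
    rfl
  have hR1 : ∀ z, 1 ≤ R z := by
    intro z
    have := le_max_left 1 ((n : ℝ) / max 1 ((n : ℝ) * ‖D (l1 z) - D (l3 z)‖))
    rw [hR]
    linarith
  have h := hB Θ α q f (fun z _ => ((s z : ℕ) : ℤ)) R n hn hq (by
    intro x _
    refine ⟨hR1 x, ?_⟩
    rw [hRlog]
    have := hdz' x
    linarith) (by
    intro x y hx hy hxy i
    obtain ⟨h1, h2, h3⟩ := hdet x y hx hy hxy
    have h4 : |(((s x : ℕ) : ℝ) - ((s y : ℕ) : ℝ))| ≤ n := by
      have a1 : ((s x : ℕ) : ℝ) ≤ n := by exact_mod_cast (s x).2.le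
      have a2 : ((s y : ℕ) : ℝ) ≤ n := by exact_mod_cast (s y).2.le
      have a3 : (0 : ℝ) ≤ ((s x : ℕ) : ℝ) := Nat.cast_nonneg _
      have a4 : (0 : ℝ) ≤ ((s y : ℕ) : ℝ) := Nat.cast_nonneg _
      rw [abs_le]
      constructor <;> linarith
    have h5 : |(((s x : ℕ) : ℝ) - ((s y : ℕ) : ℝ))| * ‖D (l1 x) - D (l3 x)‖ ≤ 2 := by
      rw [← Real.norm_eq_abs, ← norm_smul, pi_norm_le_iff_of_nonneg (by norm_num)]
      intro i
      rw [Real.norm_eq_abs]
      exact h3 i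
    have h6 := sep_bound hn h4 h5
    rw [← hR x] at h6
    have h7 := hR1 y
    push_cast
    linarith)
  have hmono : H q (fun z => (f z, s z)) ≤ H q (fun x => (f x, fun _ : Fin 1 => ((s x : ℕ) : ℤ))) := by
    refine H_mono hq ?_
    intro x y _ _ hxy
    simp only [Prod.mk.injEq] at hxy ⊢
    refine ⟨hxy.1, ?_⟩
    have h8 := congrFun hxy.2 0
    exact Fin.ext (by exact_mod_cast h8)
  have hsum : ∑ x, q x * Real.log (R x) ≤ 1 + S := by
    have e1 : ∑ x, q x * Real.log (R x) =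
        EE q (fun z => Real.log 2 + dz n D (l1 z) (l3 z)) :=
      Finset.sum_congr rfl fun x _ => by rw [hRlog]
    have e2 : EE q (fun z => dz n D (l1 z) (l3 z)) ≤ S := hS
    rw [e1, EE_add (fun _ => Real.log 2) (fun z => dz n D (l1 z) (l3 z)), EE_const hq]
    linarith
  have habs := hKa (Real.log n) hlogn
  rw [Nat.cast_one, one_mul] at h
  have hKS : 0 ≤ K * S := mul_nonneg hK hS0
  have e3 : (1 + K) * (1 + S) = 1 + S + K + K * S := by ring
  rw [e3]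
  linarith

theorem t_fb (hBOX : S_BOX) : S_FB := by
  intro d ε hε
  obtain ⟨C, hC, h⟩ := box1 hBOX ε hε
  refine ⟨C, hC, ?_⟩
  intro n Ω _ A D hfam p S _ Θ iΘ q l1 l2 l3 s0 s1 t t' τ v hc
  constructor
  · refine h d n Ω D hfam.pos S Θ q l1 l3 (Ω × Ω) (fun z => (l1 z, l3 z)) s0 hc.law hc.a13 ?_
    intro x y hx hy hxy
    simp only [Prod.mk.injEq] at hxy
    obtain ⟨h1, h2⟩ := hxy
    refine ⟨h1, h2, fun i => ?_⟩
    have e1 := congrFun (hc.i0 x hx) i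
    have e2 := congrFun (hc.i0 y hy) i
    simp only [cell] at e1 e2
    rw [← h1, ← h2] at e2
    have a1 := abs_le.1 (same_floor e1)
    have a2 := abs_le.1 (same_floor e2)
    rw [abs_le]
    constructor <;> linarith [a1.1, a1.2, a2.1, a2.2]
  · refine h d n Ω D hfam.pos S Θ q l1 l3 _
      (fun z => (l1 z, l3 z, XX A D l1 l3 s0 s1 t t' z)) s1 hc.law hc.a13 ?_
    intro x y hx hy hxy
    simp only [Prod.mk.injEq] at hxy
    obtain ⟨h1, h2, h3⟩ := hxy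
    refine ⟨h1, h2, fun i => ?_⟩
    have e1 : ((s1 x : ℕ) : ℤ) + YY s0 s1 t t' x = ((s1 y : ℕ) : ℤ) + YY s0 s1 t t' y :=
      congrArg Prod.fst h3
    have e2 := congrFun (congrArg Prod.snd h3) i
    simp only [XX, cz] at e2
    rw [← h1, ← h2] at e2
    have a1 := abs_le.1 (same_floor e2)
    have e3 : ((s1 x : ℕ) : ℝ) + (YY s0 s1 t t' x : ℝ) = ((s1 y : ℕ) : ℝ) +
        (YY s0 s1 t t' y : ℝ) := by exact_mod_cast e1
    have e4 : (YY s0 s1 t t' y : ℝ) = (YY s0 s1 t t' x : ℝ) + (((s1 x : ℕ) : ℝ) - ((s1 y : ℕ) : ℝ)) := by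
      linarith
    rw [e4] at a1
    rw [abs_le]
    constructor <;> linarith [a1.1, a1.2]

end Pool.Agent.Y37.HK
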